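import Mathlib
import Pool.Agent.Helper9.FA.ZDefs

/-! # CONVEX: the set of angle assignments is convex -/

namespace Pool.Agent.Helper9.FA

open Finset Filter Topology
open Pool.Agent.Helper9.Kashaev

/-- convex combinations of angles -/
def Cor.mix (t : ℝ) (c d : Cor ℝ) : Cor ℝ :=
  ⟨(1 - t) * c.n + t * d.n, (1 - t) * c.uL + t * d.uL, (1 - t) * c.uR + t * d.uR,
    (1 - t) * c.uB + t * d.uB, (1 - t) * c.uT + t * d.uT⟩

theorem Ang_ok {α : Type} {P : List (Item α)} {d : List ℝ} {cs : List (Cor ℝ)}
    (h : Ang P d cs) : ∀ c ∈ cs, c.Ok := by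
  induction h with
  | nil => simp
  | cup h ih => exact ih
  | cap h _ _ _ ih => exact ih
  | box h hc ih =>
    intro c' hc'
    rcases List.mem_cons.1 hc' with rfl | h'
    · exact hc
    · exact ih c' h'

theorem Ang_length {α : Type} {P : List (Item α)} {d : List ℝ} {cs : List (Cor ℝ)}
    (h : Ang P d cs) : cs.length = (labels P).length := by
  induction h with
  | nil => simp [labels]
  | cup h ih => simpa [labels] using ih
  | cap h _ _ _ ih => simpa [labels] using ih
  | box h hc ih => simpa [labels] using ih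

theorem Ang_cup_inv {α : Type} {P : List (Item α)} {k : ℕ} {d : List ℝ} {cs : List (Cor ℝ)}
    (h : Ang (.cup k :: P) d cs) : ∃ (l r : List ℝ) (a b : ℝ), l.length = k ∧
      d = l ++ (a + b) :: r ∧ Ang P (l ++ a :: Real.pi :: b :: r) cs := by
  generalize hQ : (Item.cup k : Item α) :: P = Q at h
  cases h with
  | nil => simp at hQ
  | @cup P' l r a b _ h =>
    simp only [List.cons.injEq, Item.cup.injEq] at hQ
    obtain ⟨rfl, rfl⟩ := hQ
    exact ⟨l, r, a, b, rfl, rfl, h⟩
  | cap h _ _ _ => simp at hQ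
  | box h hc => simp at hQ

theorem Ang_cap_inv {α : Type} {P : List (Item α)} {k : ℕ} {d : List ℝ} {cs : List (Cor ℝ)}
    (h : Ang (.cap k :: P) d cs) : ∃ (l r : List ℝ) (x a b : ℝ), l.length = k ∧
      d = l ++ a :: 0 :: b :: r ∧ Ang P (l ++ x :: r) cs ∧ x ≤ a ∧ x ≤ b ∧
        a + b = x + Real.pi := by
  generalize hQ : (Item.cap k : Item α) :: P = Q at h
  cases h with
  | nil => simp at hQ
  | cup h => simp at hQ
  | @cap P' l r x a b _ h ha hb hab =>
    simp only [List.cons.injEq, Item.cap.injEq] at hQ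
    obtain ⟨rfl, rfl⟩ := hQ
    exact ⟨l, r, x, a, b, rfl, rfl, h, ha, hb, hab⟩
  | box h hc => simp at hQ

theorem Ang_box_inv {α : Type} {P : List (Item α)} {k : ℕ} {e : α} {d : List ℝ}
    {cs : List (Cor ℝ)} (h : Ang (.box k e :: P) d cs) :
    ∃ (l r : List ℝ) (x y : ℝ) (c : Cor ℝ) (cs' : List (Cor ℝ)), l.length = k ∧
      d = l ++ (x + c.uL) :: c.uB :: (y + c.uR) :: r ∧ cs = c :: cs' ∧
      Ang P (l ++ x :: (Real.pi - c.uT) :: y :: r) cs' ∧ c.Ok := by
  generalize hQ : (Item.box k e : Item α) :: P = Q at h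
  cases h with
  | nil => simp at hQ
  | cup h => simp at hQ
  | cap h _ _ _ => simp at hQ
  | @box P' l r x y e' c cs' h hc =>
    simp only [List.cons.injEq, Item.box.injEq] at hQ
    obtain ⟨⟨rfl, rfl⟩, rfl⟩ := hQ
    exact ⟨l, r, x, y, c, cs', rfl, rfl, rfl, h, hc⟩

theorem Ang_nil_inv {α : Type} {d : List ℝ} {cs : List (Cor ℝ)}
    (h : Ang ([] : List (Item α)) d cs) : d = [0, 0] ∧ cs = [] := by
  cases h
  exact ⟨rfl, rfl⟩

theorem Cor.Ok.mix {c d : Cor ℝ} (hc : c.Ok) (hd : d.Ok) {t : ℝ} (h0 : 0 ≤ t) (h1 : t ≤ 1) :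
    (Cor.mix t c d).Ok := by
  have h1' : 0 ≤ 1 - t := by linarith
  obtain ⟨a1, a2, a3, a4, a5, a6, a7, a8, a9, a10⟩ := hc
  obtain ⟨b1, b2, b3, b4, b5, b6, b7, b8, b9, b10⟩ := hd
  refine ⟨?_, ?_, ?_, ?_, ?_, ?_, ?_, ?_, ?_, ?_⟩ <;> simp only [Cor.mix]
  · positivity
  · positivity
  · positivity
  · positivity
  · linear_combination (1 - t) * a5 + t * b5
  · nlinarith [mul_le_mul_of_nonneg_left a6 h1', mul_le_mul_of_nonneg_left b6 h0]
  · nlinarith [mul_le_mul_of_nonneg_left a7 h1', mul_le_mul_of_nonneg_left b7 h0]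
  · nlinarith [mul_le_mul_of_nonneg_left a8 h1', mul_le_mul_of_nonneg_left b8 h0]
  · nlinarith [mul_le_mul_of_nonneg_left a9 h1', mul_le_mul_of_nonneg_left b9 h0]
  · nlinarith [mul_le_mul_of_nonneg_left a10 h1', mul_le_mul_of_nonneg_left b10 h0]

theorem Ang_mix {α : Type} {P : List (Item α)} {d e : List ℝ} {cs ds : List (Cor ℝ)}
    (h : Ang P d cs) (h' : Ang P e ds) (hl : d.length = e.length) {t : ℝ} (h0 : 0 ≤ t) (h1 : t ≤ 1) :
    Ang P (List.zipWith (fun x y => (1 - t) * x + t * y) d e) (List.zipWith (Cor.mix t) cs ds) := by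
  have h1' : 0 ≤ 1 - t := by linarith
  induction h generalizing e ds with
  | nil =>
    obtain ⟨rfl, rfl⟩ := Ang_nil_inv h'
    have : List.zipWith (fun x y : ℝ => (1 - t) * x + t * y) [0, 0] [0, 0] = [0, 0] := by
      simp
    rw [this]
    exact Ang.nil
  | @cup P l r a b cs h ih =>
    obtain ⟨l', r', a', b', hk, rfl, h''⟩ := Ang_cup_inv h'
    have hr : r.length = r'.length := by
      simp only [List.length_append, List.length_cons] at hl; omega
    have := ih h'' (by simp only [List.length_append, List.length_cons]; omega)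
    rw [List.zipWith_append hk.symm] at this ⊢
    simp only [List.zipWith_cons_cons] at this ⊢
    have e1 : (1 - t) * Real.pi + t * Real.pi = Real.pi := by ring
    rw [e1] at this
    have h2 := Ang.cup this
    rw [List.length_zipWith, hk, min_self] at h2
    convert h2 using 3
    ring
  | @cap P l r x a b cs h ha hb hab ih =>
    obtain ⟨l', r', x', a', b', hk, rfl, h'', ha', hb', hab'⟩ := Ang_cap_inv h'
    have hr : r.length = r'.length := by
      simp only [List.length_append, List.length_cons] at hl; omega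
    have := ih h'' (by simp only [List.length_append, List.length_cons]; omega)
    rw [List.zipWith_append hk.symm] at this ⊢
    simp only [List.zipWith_cons_cons] at this ⊢
    have h2 := Ang.cap this (a := (1 - t) * a + t * a') (b := (1 - t) * b + t * b')
      (by nlinarith [mul_le_mul_of_nonneg_left ha h1', mul_le_mul_of_nonneg_left ha' h0])
      (by nlinarith [mul_le_mul_of_nonneg_left hb h1', mul_le_mul_of_nonneg_left hb' h0])
      (by linear_combination (1 - t) * hab + t * hab')
    rw [List.length_zipWith, hk, min_self] at h2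
    convert h2 using 4
    ring
  | @box P l r x y e' c cs h hc ih =>
    obtain ⟨l', r', x', y', c', cs', hk, rfl, rfl, h'', hc'⟩ := Ang_box_inv h'
    have hr : r.length = r'.length := by
      simp only [List.length_append, List.length_cons] at hl; omega
    have := ih h'' (by simp only [List.length_append, List.length_cons]; omega)
    rw [List.zipWith_append hk.symm] at this ⊢
    simp only [List.zipWith_cons_cons] at this ⊢
    have e1 : (1 - t) * (Real.pi - c.uT) + t * (Real.pi - c'.uT) =
        Real.pi - (Cor.mix t c c').uT := by simp only [Cor.mix]; ring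
    rw [e1] at this
    have h2 := Ang.box (e := e') this (hc.mix hc' h0 h1)
    rw [List.length_zipWith, hk, min_self] at h2
    convert h2 using 3
    · simp only [Cor.mix]; ring
    · simp only [Cor.mix]
      congr 2
      ring

theorem Ang_wf {α : Type} {P : List (Item α)} {d : List ℝ} {cs : List (Cor ℝ)}
    (h : Ang P d cs) : 2 ≤ d.length ∧ wfP (d.length - 1) P 1 := by
  have key : (∃ q, d.length = 2 * q) ∧ 2 ≤ d.length ∧ wfP (d.length - 1) P 1 := by
    induction h with
    | nil => exact ⟨⟨1, rfl⟩, le_rfl, rfl⟩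
    | @cup P l r a b cs h ih =>
      obtain ⟨⟨q, hq⟩, h2, h3⟩ := ih
      simp only [List.length_append, List.length_cons] at hq h2 h3 ⊢
      refine ⟨⟨q - 1, by omega⟩, by omega, ?_, ?_⟩
      · omega
      · have : l.length + (r.length + 1) - 1 + 2 = l.length + (r.length + 1 + 1 + 1) - 1 := by
          omega
        rw [this]
        exact h3
    | @cap P l r x a b cs h ha hb hab ih =>
      obtain ⟨⟨q, hq⟩, h2, h3⟩ := ih
      simp only [List.length_append, List.length_cons] at hq h2 h3 ⊢
      refine ⟨⟨q + 1, by omega⟩, by omega, ?_, ?_⟩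
      · omega
      · have : l.length + (r.length + 1 + 1 + 1) - 1 - 2 = l.length + (r.length + 1) - 1 := by
          omega
        rw [this]
        exact h3
    | @box P l r x y e' c cs h hc ih =>
      obtain ⟨⟨q, hq⟩, h2, h3⟩ := ih
      simp only [List.length_append, List.length_cons] at hq h2 h3 ⊢
      refine ⟨⟨q, by omega⟩, by omega, ?_, h3⟩
      omega
  exact key.2

end Pool.Agent.Helper9.FA
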