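import Mathlib
import Pool.Agent.Helper12.FA.CONVEX
import Pool.Agent.Helper9.Asym

/-! # EXMAX: the volume has a maximum on the set of angle assignments -/

namespace Pool.Agent.Helper9.FA

open Filter Topology
open Pool.Agent.Helper9.Kashaev

namespace ExMax

/-- entrywise convergence of lists -/
def LimG {T : Type} (R : (ℕ → T) → T → Prop) : (ℕ → List T) → List T → Prop
  | xs, [] => ∀ n, xs n = []
  | xs, x0 :: l => ∃ (x : ℕ → T) (ys : ℕ → List T), R x x0 ∧ LimG R ys l ∧
      ∀ n, xs n = x n :: ys n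

theorem LimG.subseq {T : Type} {R : (ℕ → T) → T → Prop}
    (hR : ∀ (x : ℕ → T) (x0 : T) (φ : ℕ → ℕ), StrictMono φ → R x x0 → R (x ∘ φ) x0)
    {φ : ℕ → ℕ} (hφ : StrictMono φ) : ∀ {xs : ℕ → List T} {l : List T}, LimG R xs l →
      LimG R (xs ∘ φ) l
  | xs, [], h => fun n => h (φ n)
  | xs, x0 :: l, ⟨x, ys, h1, h2, h3⟩ =>
    ⟨x ∘ φ, ys ∘ φ, hR _ _ _ hφ h1, LimG.subseq hR hφ h2, fun n => h3 (φ n)⟩

theorem LimG.append {T : Type} {R : (ℕ → T) → T → Prop} :
    ∀ {xs ys : ℕ → List T} {l m : List T}, LimG R xs l → LimG R ys m →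
      LimG R (fun n => xs n ++ ys n) (l ++ m)
  | xs, ys, [], m, h, h' => by
    have : (fun n => xs n ++ ys n) = ys := by
      funext n
      rw [h n, List.nil_append]
    rw [this, List.nil_append]
    exact h'
  | xs, ys, x0 :: l, m, ⟨x, zs, h1, h2, h3⟩, h' => by
    refine ⟨x, fun n => zs n ++ ys n, h1, LimG.append h2 h', fun n => ?_⟩
    show xs n ++ ys n = _
    rw [h3 n, List.cons_append]

theorem LimG.cons {T : Type} {R : (ℕ → T) → T → Prop} {x : ℕ → T} {x0 : T} {xs : ℕ → List T}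
    {l : List T} (h : R x x0) (h' : LimG R xs l) : LimG R (fun n => x n :: xs n) (x0 :: l) :=
  ⟨x, xs, h, h', fun _ => rfl⟩

theorem LimG.cons_inv {T : Type} {R : (ℕ → T) → T → Prop} {x : ℕ → T} {xs : ℕ → List T}
    {d : List T} (h : LimG R (fun n => x n :: xs n) d) :
    ∃ (x0 : T) (l : List T), d = x0 :: l ∧ R x x0 ∧ LimG R xs l := by
  cases d with
  | nil => exact absurd (h 0) (by simp)
  | cons x0 l =>
    obtain ⟨y, ys, h1, h2, h3⟩ := h
    have hx : x = y := by
      funext n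
      have := h3 n
      simp only [List.cons.injEq] at this
      exact this.1
    have hxs : xs = ys := by
      funext n
      have := h3 n
      simp only [List.cons.injEq] at this
      exact this.2
    subst hx hxs
    exact ⟨x0, l, rfl, h1, h2⟩

theorem LimG.append_inv {T : Type} {R : (ℕ → T) → T → Prop} : ∀ {k : ℕ} {xs ys : ℕ → List T}
    {d : List T}, LimG R (fun n => xs n ++ ys n) d → (∀ n, (xs n).length = k) →
      ∃ l m : List T, d = l ++ m ∧ l.length = k ∧ LimG R xs l ∧ LimG R ys m := by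
  intro k
  induction k with
  | zero =>
    intro xs ys d h hk
    have hx : ∀ n, xs n = [] := fun n => List.eq_nil_of_length_eq_zero (hk n)
    refine ⟨[], d, rfl, rfl, hx, ?_⟩
    have : (fun n => xs n ++ ys n) = ys := by
      funext n
      rw [hx n, List.nil_append]
    rwa [this] at h
  | succ k ih =>
    intro xs ys d h hk
    have hx : ∀ n, ∃ (a : T) (t : List T), xs n = a :: t := by
      intro n
      cases hn : xs n with
      | nil => have := hk n; rw [hn] at this; simp at this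
      | cons a t => exact ⟨a, t, rfl⟩
    choose a t hat using hx
    have e : (fun n => xs n ++ ys n) = fun n => a n :: (t n ++ ys n) := by
      funext n
      rw [hat n, List.cons_append]
    rw [e] at h
    obtain ⟨a0, d', rfl, h1, h2⟩ := h.cons_inv
    obtain ⟨l, m, rfl, hl, h3, h4⟩ := ih h2 (fun n => by
      have := hk n
      rw [hat n] at this
      simpa using this)
    refine ⟨a0 :: l, m, rfl, by simp [hl], ?_, h4⟩
    exact ⟨a, t, h1, h3, hat⟩

/-- convergence of reals -/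
def RT1 (x : ℕ → ℝ) (x0 : ℝ) : Prop := Tendsto x atTop (𝓝 x0)

/-- convergence of corners -/
def RC (c : ℕ → Cor ℝ) (c0 : Cor ℝ) : Prop :=
  RT1 (fun n => (c n).n) c0.n ∧ RT1 (fun n => (c n).uL) c0.uL ∧ RT1 (fun n => (c n).uR) c0.uR ∧
    RT1 (fun n => (c n).uB) c0.uB ∧ RT1 (fun n => (c n).uT) c0.uT

theorem RT1_sub (x : ℕ → ℝ) (x0 : ℝ) (φ : ℕ → ℕ) (hφ : StrictMono φ) (h : RT1 x x0) :
    RT1 (x ∘ φ) x0 := Tendsto.comp h hφ.tendsto_atTop

theorem RC_sub (x : ℕ → Cor ℝ) (x0 : Cor ℝ) (φ : ℕ → ℕ) (hφ : StrictMono φ) (h : RC x x0) :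
    RC (x ∘ φ) x0 :=
  ⟨RT1_sub _ _ φ hφ h.1, RT1_sub _ _ φ hφ h.2.1, RT1_sub _ _ φ hφ h.2.2.1,
    RT1_sub _ _ φ hφ h.2.2.2.1, RT1_sub _ _ φ hφ h.2.2.2.2⟩

theorem Ang_nonneg {α : Type} {P : List (Item α)} {d : List ℝ} {cs : List (Cor ℝ)}
    (h : Ang P d cs) : ∀ x ∈ d, 0 ≤ x := by
  induction h with
  | nil => simp
  | @cup P l r a b cs h ih =>
    intro z hz
    have ha : 0 ≤ a := ih a (by simp)
    have hb : 0 ≤ b := ih b (by simp)
    rw [List.mem_append, List.mem_cons] at hz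
    rcases hz with hz | rfl | hz
    · exact ih z (by simp [hz])
    · linarith
    · exact ih z (by simp [hz])
  | @cap P l r x a b cs h ha hb hab ih =>
    intro z hz
    have hx : 0 ≤ x := ih x (by simp)
    simp only [List.mem_append, List.mem_cons] at hz
    rcases hz with hz | rfl | rfl | rfl | hz
    · exact ih z (by simp [hz])
    · linarith
    · exact le_rfl
    · linarith
    · exact ih z (by simp [hz])
  | @box P l r x y e' c cs h hc ih =>
    intro z hz
    have hx : 0 ≤ x := ih x (by simp)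
    have hy : 0 ≤ y := ih y (by simp)
    have := hc.L0
    have := hc.R0
    have := hc.B0
    simp only [List.mem_append, List.mem_cons] at hz
    rcases hz with hz | rfl | rfl | rfl | hz
    · exact ih z (by simp [hz])
    · linarith
    · exact hc.B0
    · linarith
    · exact ih z (by simp [hz])

theorem Ok_seq {c : ℕ → Cor ℝ} (hc : ∀ n, (c n).Ok) : ∃ φ : ℕ → ℕ, StrictMono φ ∧
    ∃ c0 : Cor ℝ, c0.Ok ∧ RC (c ∘ φ) c0 := by
  have hpi := Real.pi_pos
  have hK : IsCompact (Set.Icc ((0, 0, 0, 0, 0) : ℝ × ℝ × ℝ × ℝ × ℝ)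
    (Real.pi, Real.pi, Real.pi, Real.pi, Real.pi)) := isCompact_Icc
  have hmem : ∀ n, ((c n).n, (c n).uL, (c n).uR, (c n).uB, (c n).uT) ∈
      Set.Icc ((0, 0, 0, 0, 0) : ℝ × ℝ × ℝ × ℝ × ℝ)
        (Real.pi, Real.pi, Real.pi, Real.pi, Real.pi) := by
    intro n
    obtain ⟨a1, a2, a3, a4, a5, a6, a7, a8, a9, a10⟩ := hc n
    refine ⟨⟨?_, ?_, ?_, ?_, ?_⟩, ⟨?_, ?_, ?_, ?_, ?_⟩⟩ <;> dsimp only <;> linarith
  obtain ⟨p, _, φ, hφ, hlim⟩ := hK.tendsto_subseq hmem
  obtain ⟨p1, p2, p3, p4, p5⟩ := p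
  have t1 := hlim.fst_nhds
  have t2 := hlim.snd_nhds.fst_nhds
  have t3 := hlim.snd_nhds.snd_nhds.fst_nhds
  have t4 := hlim.snd_nhds.snd_nhds.snd_nhds.fst_nhds
  have t5 := hlim.snd_nhds.snd_nhds.snd_nhds.snd_nhds
  dsimp only [Function.comp_apply] at t1 t2 t3 t4 t5
  refine ⟨φ, hφ, ⟨p1, p2, p3, p4, p5⟩, ?_, t1, t2, t3, t4, t5⟩
  constructor <;> dsimp only
  · exact ge_of_tendsto' t2 fun n => (hc (φ n)).L0
  · exact ge_of_tendsto' t3 fun n => (hc (φ n)).R0
  · exact ge_of_tendsto' t4 fun n => (hc (φ n)).B0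
  · exact ge_of_tendsto' t5 fun n => (hc (φ n)).T0
  · have := ((t2.add t3).add t4).add t5
    refine tendsto_nhds_unique this ?_
    have e : (fun n => (c (φ n)).uL + (c (φ n)).uR + (c (φ n)).uB + (c (φ n)).uT) =
        fun _ => Real.pi := by
      funext n
      exact (hc (φ n)).sum
    rw [e]
    exact tendsto_const_nhds
  · exact le_of_tendsto_of_tendsto' t4 t1 fun n => (hc (φ n)).Bn
  · exact le_of_tendsto_of_tendsto' t5 t1 fun n => (hc (φ n)).Tn
  · exact le_of_tendsto' (t2.add t1) fun n => (hc (φ n)).Ln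
  · exact le_of_tendsto' (t3.add t1) fun n => (hc (φ n)).Rn
  · exact le_of_tendsto' (t1.const_mul 2) fun n => (hc (φ n)).n2

theorem Ang_seq {α : Type} (P : List (Item α)) : ∀ {ds : ℕ → List ℝ} {css : ℕ → List (Cor ℝ)}
    {d : List ℝ}, (∀ n, Ang P (ds n) (css n)) → LimG RT1 ds d →
      ∃ φ : ℕ → ℕ, StrictMono φ ∧ ∃ cs, LimG RC (css ∘ φ) cs ∧ Ang P d cs := by
  induction P with
  | nil =>
    intro ds css d h hl
    have e1 : ds = fun _ => [0, 0] := funext fun n => (Ang_nil_inv (h n)).1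
    have e2 : css = fun _ => [] := funext fun n => (Ang_nil_inv (h n)).2
    subst e1 e2
    obtain ⟨x0, l, rfl, h1, h2⟩ := LimG.cons_inv hl
    obtain ⟨x1, l, rfl, h3, h4⟩ := LimG.cons_inv h2
    have hl : l = [] := by
      cases l with
      | nil => rfl
      | cons x l =>
        obtain ⟨_, _, _, _, h5⟩ := h4
        exact absurd (h5 0) (by simp)
    subst hl
    have e1 : x0 = 0 := tendsto_nhds_unique h1 tendsto_const_nhds
    have e2 : x1 = 0 := tendsto_nhds_unique h3 tendsto_const_nhds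
    subst e1 e2
    exact ⟨id, strictMono_id, [], fun _ => rfl, Ang.nil⟩
  | cons it P ih =>
    cases it with
    | cup k =>
      intro ds css d h hl
      choose l r a b hk hd hA using fun n => Ang_cup_inv (h n)
      have e1 : ds = fun n => l n ++ (a n + b n) :: r n := funext hd
      subst e1
      obtain ⟨l0, m, rfl, hk0, h1, h2⟩ := LimG.append_inv hl hk
      obtain ⟨c, r0, rfl, h3, h4⟩ := LimG.cons_inv h2
      have hpos : ∀ n, 0 ≤ a n ∧ 0 ≤ b n := fun n =>
        ⟨Ang_nonneg (hA n) _ (by simp), Ang_nonneg (hA n) _ (by simp)⟩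
      obtain ⟨B, hB⟩ := (Tendsto.bddAbove_range (u := fun n => a n + b n) h3)
      have hB' : ∀ n, a n + b n ≤ B := fun n => hB ⟨n, rfl⟩
      obtain ⟨a0, _, φ, hφ, ha0⟩ := (isCompact_Icc (a := (0 : ℝ)) (b := B)).tendsto_subseq
        (x := a) (fun n => ⟨(hpos n).1, by linarith [(hpos n).2, hB' n]⟩)
      have hb0 : Tendsto (fun n => b (φ n)) atTop (𝓝 (c - a0)) := by
        have := (RT1_sub _ _ φ hφ h3).sub ha0
        refine this.congr fun n => ?_
        simp only [Function.comp_apply]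
        ring
      have hl' : LimG RT1 (fun n => l (φ n) ++ a (φ n) :: Real.pi :: b (φ n) :: r (φ n))
          (l0 ++ a0 :: Real.pi :: (c - a0) :: r0) := by
        refine LimG.append (xs := l ∘ φ) (LimG.subseq RT1_sub hφ h1) ?_
        refine LimG.cons ha0 ?_
        refine LimG.cons tendsto_const_nhds ?_
        refine LimG.cons hb0 ?_
        exact LimG.subseq RT1_sub hφ h4
      obtain ⟨ψ, hψ, cs, hcs, hang⟩ := ih (css := fun n => css (φ n)) (fun n => hA (φ n)) hl'
      refine ⟨φ ∘ ψ, hφ.comp hψ, cs, hcs, ?_⟩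
      have := Ang.cup hang
      rw [hk0, add_sub_cancel] at this
      exact this
    | cap k =>
      intro ds css d h hl
      choose l r x a b hk hd hA ha hb hab using fun n => Ang_cap_inv (h n)
      have e1 : ds = fun n => l n ++ a n :: 0 :: b n :: r n := funext hd
      subst e1
      obtain ⟨l0, m, rfl, hk0, h1, h2⟩ := LimG.append_inv hl hk
      obtain ⟨a0, m, rfl, h3, h2⟩ := LimG.cons_inv h2
      obtain ⟨z0, m, rfl, h4, h2⟩ := LimG.cons_inv h2
      obtain ⟨b0, r0, rfl, h5, h6⟩ := LimG.cons_inv h2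
      have ez : z0 = 0 := tendsto_nhds_unique h4 tendsto_const_nhds
      subst ez
      have hx0 : Tendsto x atTop (𝓝 (a0 + b0 - Real.pi)) := by
        have := (Tendsto.add h3 h5).sub_const Real.pi
        refine this.congr fun n => ?_
        linarith [hab n]
      have hl' : LimG RT1 (fun n => l n ++ x n :: r n) (l0 ++ (a0 + b0 - Real.pi) :: r0) :=
        LimG.append h1 (LimG.cons hx0 h6)
      obtain ⟨ψ, hψ, cs, hcs, hang⟩ := ih hA hl'
      refine ⟨ψ, hψ, cs, hcs, ?_⟩
      have := Ang.cap hang (a := a0) (b := b0) (le_of_tendsto_of_tendsto' hx0 h3 ha)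
        (le_of_tendsto_of_tendsto' hx0 h5 hb) (by ring)
      rw [hk0] at this
      exact this
    | box k e =>
      intro ds css d h hl
      choose l r x y c cs' hk hd hcs hA hc using fun n => Ang_box_inv (h n)
      have e1 : ds = fun n => l n ++ (x n + (c n).uL) :: (c n).uB :: (y n + (c n).uR) :: r n :=
        funext hd
      have e2 : css = fun n => c n :: cs' n := funext hcs
      subst e1 e2
      obtain ⟨l0, m, rfl, hk0, h1, h2⟩ := LimG.append_inv hl hk
      obtain ⟨a0, m, rfl, h3, h2⟩ := LimG.cons_inv h2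
      obtain ⟨z0, m, rfl, h4, h2⟩ := LimG.cons_inv h2
      obtain ⟨b0, r0, rfl, h5, h6⟩ := LimG.cons_inv h2
      obtain ⟨φ, hφ, c0, hc0, t1, t2, t3, t4, t5⟩ := Ok_seq hc
      have ez : z0 = c0.uB := tendsto_nhds_unique (RT1_sub _ _ φ hφ h4) t4
      subst ez
      have hx0 : Tendsto (fun n => x (φ n)) atTop (𝓝 (a0 - c0.uL)) := by
        have := (RT1_sub _ _ φ hφ h3).sub t2
        refine this.congr fun n => ?_
        simp only [Function.comp_apply]
        ring
      have hy0 : Tendsto (fun n => y (φ n)) atTop (𝓝 (b0 - c0.uR)) := by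
        have := (RT1_sub _ _ φ hφ h5).sub t3
        refine this.congr fun n => ?_
        simp only [Function.comp_apply]
        ring
      have hz0 : Tendsto (fun n => Real.pi - (c (φ n)).uT) atTop (𝓝 (Real.pi - c0.uT)) :=
        Tendsto.const_sub _ t5
      have hl' : LimG RT1 (fun n => l (φ n) ++ x (φ n) :: (Real.pi - (c (φ n)).uT) :: y (φ n) ::
          r (φ n)) (l0 ++ (a0 - c0.uL) :: (Real.pi - c0.uT) :: (b0 - c0.uR) :: r0) := by
        refine LimG.append (xs := l ∘ φ) (LimG.subseq RT1_sub hφ h1) ?_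
        refine LimG.cons hx0 ?_
        refine LimG.cons hz0 ?_
        refine LimG.cons hy0 ?_
        exact LimG.subseq RT1_sub hφ h6
      obtain ⟨ψ, hψ, cs, hcs, hang⟩ := ih (css := fun n => cs' (φ n)) (fun n => hA (φ n)) hl'
      refine ⟨φ ∘ ψ, hφ.comp hψ, c0 :: cs, ?_, ?_⟩
      · refine ⟨fun n => c (φ (ψ n)), fun n => cs' (φ (ψ n)), ?_, hcs, fun n => rfl⟩
        exact RC_sub _ _ ψ hψ ⟨t1, t2, t3, t4, t5⟩
      · have := Ang.box (e := e) hang hc0
        rw [hk0, sub_add_cancel, sub_add_cancel] at this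
        exact this

theorem loba_cont : Continuous lobachevsky := by
  have : lobachevsky = fun x => - HH x := funext HH_loba
  rw [this]
  exact HH_cont.neg

theorem tet_cont : Continuous (fun x : ℝ × ℝ => tet x.1 x.2) := by
  unfold tet
  have h := loba_cont
  fun_prop

theorem vol_lim {c : ℕ → Cor ℝ} {c0 : Cor ℝ} (h : RC c c0) :
    Tendsto (fun n => (c n).vol) atTop (𝓝 c0.vol) := by
  obtain ⟨t1, t2, t3, t4, t5⟩ := h
  have key : ∀ {x y : ℕ → ℝ} {x0 y0 : ℝ}, Tendsto x atTop (𝓝 x0) → Tendsto y atTop (𝓝 y0) →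
      Tendsto (fun n => tet (x n) (y n)) atTop (𝓝 (tet x0 y0)) := by
    intro x y x0 y0 hx hy
    exact (tet_cont.tendsto (x0, y0)).comp (hx.prodMk_nhds hy)
  unfold Cor.vol
  exact (((((key t1 (Tendsto.const_sub _ t1)).const_mul 2).add
    (key t2 ((Tendsto.const_sub _ t1).sub t2))).add (key t3 ((Tendsto.const_sub _ t1).sub t3))).add
    (key t4 (Tendsto.sub t1 t4))).add (key t5 (Tendsto.sub t1 t5)) |>.const_mul 2

theorem vol_list_lim : ∀ {css : ℕ → List (Cor ℝ)} {cs : List (Cor ℝ)}, LimG RC css cs →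
    Tendsto (fun n => vol (css n)) atTop (𝓝 (vol cs))
  | css, [], h => by
    have : css = fun _ => [] := funext h
    subst this
    exact tendsto_const_nhds
  | css, c0 :: cs, ⟨c, cs', h1, h2, h3⟩ => by
    have : css = fun n => c n :: cs' n := funext h3
    subst this
    have := (vol_lim h1).add (vol_list_lim h2)
    simpa [vol] using this

end ExMax

open ExMax in
/-- there is a maximum -/
theorem exists_max {α : Type} {P : List (Item α)} {cs0 : List (Cor ℝ)} (h0 : Ang P [0, 0] cs0) :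
    ∃ cs, Ang P [0, 0] cs ∧ ∀ ds, Ang P [0, 0] ds → vol ds ≤ vol cs := by
  have hK : IsCompact (vol '' {cs | Ang P [0, 0] cs}) := by
    rw [isCompact_iff_isSeqCompact]
    intro y hy
    choose css hcss hv using hy
    have hl : LimG RT1 (fun _ : ℕ => [(0 : ℝ), 0]) [0, 0] :=
      LimG.cons tendsto_const_nhds (LimG.cons tendsto_const_nhds fun _ => rfl)
    obtain ⟨φ, hφ, cs, hcs, hang⟩ := Ang_seq P (css := css) hcss hl
    refine ⟨vol cs, ⟨cs, hang, rfl⟩, φ, hφ, ?_⟩
    refine (vol_list_lim hcs).congr fun n => ?_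
    simp only [Function.comp_apply]
    exact hv (φ n)
  obtain ⟨m, ⟨cs, hcs, rfl⟩, hm⟩ := hK.exists_isGreatest ⟨vol cs0, cs0, h0, rfl⟩
  exact ⟨cs, hcs, fun ds hds => hm ⟨ds, hds, rfl⟩⟩

end Pool.Agent.Helper9.FA
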